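import Pool.Agent.Lib.MP_1a91b9_ntB.S.TrB

/-!
# The rank part for the multiples by a finite set: from families to finite sets
-/

set_option autoImplicit false

namespace Pool.Agent.Lib.MP_1a91b9_ntB

open NumberField
open Pool.Agent.Lib.MP_1a91b9_ntW.J (RkZ PropGE Cls2)
open Pool.Agent.Lib.MP_1a91b9_ntZ (bn Atl SepF BQG)

noncomputable section

open Classical in
/-- **From families to finite sets.** -/
theorem MQB.of_bqg {K : Type} [Field K] [NumberField K] {l : ℕ}
    {H : (F : Type) → [Field F] → 𝓞 K → 𝓞 K → Prop} {E : Set K} {a b : K} {c : ℝ}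
    (hE : ∀ e ∈ E, e = 1 ∨ e = -1 ∨ e = b ∨ e = -b) (h : BQG K l H E a b c) :
    MQB K l H a b c := by
  intro F _ _ _ hF Δ hΔ t m u hmu
  obtain ⟨g, hg⟩ : ∃ g : Fin Δ.card ≃ Δ, g = Δ.equivFin.symm := ⟨_, rfl⟩
  have hsep : SepF K F E (fun i : Fin Δ.card => ((g i : 𝓞 K) : K)) := by
    refine ⟨fun i h0 => hΔ.ne _ (g i).2 (RingOfIntegers.coe_eq_zero_iff.1 h0),
      fun i j hij e he => ?_⟩
    have hne : ((g i : 𝓞 K)) ≠ ((g j : 𝓞 K)) := fun h1 => hij (g.injective (Subtype.ext h1))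
    have e1 : ((g i : 𝓞 K) : K) * ((g j : 𝓞 K) : K) = (((g i : 𝓞 K) * (g j : 𝓞 K) : 𝓞 K) : K) := by
      push_cast
      rfl
    rintro ⟨x, hx⟩
    have hx' : IsSquare (algebraMap K F (e * (((g i : 𝓞 K) * (g j : 𝓞 K) : 𝓞 K) : K))) :=
      ⟨x, by rw [← e1, ← hx, sq]⟩
    have k1 := hΔ.one _ (g i).2 _ (g j).2 hne
    have k2 := hΔ.mul _ (g i).2 _ (g j).2 hne
    rcases hE e he with rfl | rfl | rfl | rfl
    · exact k1.1 hx'
    · rw [neg_one_mul] at hx'
      rw [one_mul] at k1
      exact k1.2 hx'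
    · exact k2.1 hx'
    · rw [neg_mul] at hx'
      exact k2.2 hx'
  have h1 := h F hF m u hmu Δ.card (fun i => ((g i : 𝓞 K) : K)) hsep t
  have e2 : (fun d : 𝓞 K => t ≤ (Δ.filter fun δ => RkZ (crF F a b (d * δ))).card) =
      fun d : 𝓞 K => Atl t fun i : Fin Δ.card => RkZ (⟨0, algebraMap K F (((g i : 𝓞 K) : K) * d * a),
        0, algebraMap K F ((((g i : 𝓞 K) : K) * d) ^ 2 * b), 0⟩ : WeierstrassCurve F) := by
    funext d
    unfold Atl
    have e3 : (Δ.filter fun δ => RkZ (crF F a b (d * δ))).card =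
        (Finset.univ.filter fun i : Fin Δ.card => RkZ (⟨0, algebraMap K F (((g i : 𝓞 K) : K) * d * a),
          0, algebraMap K F ((((g i : 𝓞 K) : K) * d) ^ 2 * b), 0⟩ : WeierstrassCurve F)).card := by
      symm
      refine Finset.card_bij (fun i _ => ((g i : Δ) : 𝓞 K)) (fun i hi => ?_) (fun i _ j _ hij => ?_)
        (fun δ hδ => ?_)
      · rw [Finset.mem_filter] at hi ⊢
        refine ⟨(g i).2, ?_⟩
        have e4 : crF F a b (d * (g i : 𝓞 K)) = ⟨0, algebraMap K F (((g i : 𝓞 K) : K) * d * a), 0,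
            algebraMap K F ((((g i : 𝓞 K) : K) * d) ^ 2 * b), 0⟩ := by
          unfold crF
          have e5 : ((d * (g i : 𝓞 K) : 𝓞 K) : K) = ((g i : 𝓞 K) : K) * d := by
            push_cast
            ring
          rw [e5]
        rw [e4]
        exact hi.2
      · exact g.injective (Subtype.ext hij)
      · rw [Finset.mem_filter] at hδ
        refine ⟨g.symm ⟨δ, hδ.1⟩, ?_, ?_⟩
        · rw [Finset.mem_filter]
          refine ⟨Finset.mem_univ _, ?_⟩
          rw [Equiv.apply_symm_apply]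
          have e4 : crF F a b (d * δ) = ⟨0, algebraMap K F ((δ : K) * d * a), 0,
              algebraMap K F (((δ : K) * d) ^ 2 * b), 0⟩ := by
            unfold crF
            have e5 : ((d * δ : 𝓞 K) : K) = (δ : K) * d := by
              push_cast
              ring
            rw [e5]
          rw [← e4]
          exact hδ.2
        · rw [Equiv.apply_symm_apply]
    rw [e3]
  rw [e2]
  exact h1

end

end Pool.Agent.Lib.MP_1a91b9_ntB
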