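import Pool.Agent.Lib.MP_1a91b9_ntB.S.TrB
import Pool.Agent.Lib.MP_1a91b9_ntW.J.StarG

/-!
# The rank part for the multiples by a finite set: independence of the equation, isogenies of degree two
-/

set_option autoImplicit false

namespace Pool.Agent.Lib.MP_1a91b9_ntB

open NumberField WeierstrassCurve
open Pool.Agent.Lib.MP_1a91b9_ntW.J (RkZ PropGE Cls2 twd twd_vc twd_crv twd_hasJ hasJ_map Inv2)
open Pool.Agent.Lib.MP_1a91b9_nuI (HasJ)
open Pool.Agent.Lib.MP_1a91b9_ntL (crv)

noncomputable section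

section
variable {K : Type} [Field K]

theorem crF_eq (F : Type) [Field F] [Algebra K F] [CharZero K] (a b : K) (d : 𝓞 K) :
    crF F a b d = (twd (crv a b) (d : K)).map (algebraMap K F) := by
  rw [twd_crv]
  exact WeierstrassCurve.ext (map_zero _).symm rfl (map_zero _).symm rfl (map_zero _).symm

theorem SepU.congr {F : Type} [Field F] [Algebra K F] {x y : K} {Δ : Finset (𝓞 K)}
    (h : SepU F x Δ) {z : K} (hz : z ≠ 0) (e : y = x * z ^ 2 ∨ y = -(x * z ^ 2)) : SepU F y Δ := by
  have hz' : algebraMap K F z ≠ 0 := (map_ne_zero _).2 hz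
  have key : ∀ w : K, IsSquare (algebraMap K F (w * z ^ 2)) → IsSquare (algebraMap K F w) := by
    rintro w ⟨v, hv⟩
    refine ⟨v / algebraMap K F z, ?_⟩
    rw [map_mul, map_pow] at hv
    field_simp
    rw [hv]
    ring
  intro δ hδ δ' hδ' hne
  obtain ⟨h1, h2⟩ := h δ hδ δ' hδ' hne
  rcases e with rfl | rfl
  · refine ⟨fun h3 => h1 (key _ ?_), fun h3 => h2 (key _ ?_)⟩
    · rwa [mul_right_comm]
    · rwa [neg_mul, mul_right_comm]
  · refine ⟨fun h3 => h2 (key _ ?_), fun h3 => h1 (key _ ?_)⟩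
    · rw [neg_mul, mul_right_comm]
      rwa [neg_mul] at h3
    · rw [mul_right_comm]
      rwa [neg_mul, neg_neg] at h3

theorem SepU.of_eq {F : Type} [Field F] [Algebra K F] {x y : K} {Δ : Finset (𝓞 K)}
    (h : SepU F x Δ) {z : K} (hz : z ≠ 0) (e : y * z ^ 2 = x ∨ y * z ^ 2 = -x) : SepU F y Δ := by
  refine h.congr (inv_ne_zero hz) ?_
  rcases e with e | e
  · left
    rw [← e]
    field_simp
  · right
    rw [← neg_eq_iff_eq_neg.2 e]
    field_simp

/-- the equations `y² = x³ + a x² + b x` of `y² = x³ + c x` -/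
theorem crv_zero_cases [CharZero K] {a b c : K} {C : VariableChange K} (h : C • crv a b = crv 0 c) :
    (a = 0 ∧ ∃ z : K, z ≠ 0 ∧ b = c * z ^ 2) ∨ ∃ z : K, c = -z ^ 2 := by
  have h3 : (3 : K) ≠ 0 := by norm_num
  have h2 : (2 : K) ≠ 0 := two_ne_zero
  have hu : ((C.u⁻¹ : Kˣ) : K) ≠ 0 := Units.ne_zero _
  have e1 := congrArg WeierstrassCurve.a₁ h
  have e2 := congrArg WeierstrassCurve.a₂ h
  have e3 := congrArg WeierstrassCurve.a₃ h
  have e4 := congrArg WeierstrassCurve.a₄ h
  have e6 := congrArg WeierstrassCurve.a₆ h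
  rw [variableChange_a₁] at e1
  rw [variableChange_a₂] at e2
  rw [variableChange_a₃] at e3
  rw [variableChange_a₄] at e4
  rw [variableChange_a₆] at e6
  simp only [crv, mul_zero, zero_add, add_zero, sub_zero] at e1 e2 e3 e4 e6
  have hs : C.s = 0 := by
    rcases mul_eq_zero.1 e1 with h5 | h5
    · exact absurd h5 hu
    · exact (mul_eq_zero.1 h5).resolve_left h2
  have ht : C.t = 0 := by
    rcases mul_eq_zero.1 e3 with h5 | h5
    · exact absurd h5 (pow_ne_zero _ hu)
    · exact (mul_eq_zero.1 h5).resolve_left h2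
  rw [hs] at e2 e4
  rw [ht] at e4 e6
  have ha : a = -3 * C.r := by
    rcases mul_eq_zero.1 e2 with h5 | h5
    · exact absurd h5 (pow_ne_zero _ hu)
    · linear_combination h5
  have h6 : C.r * (b + C.r * a + C.r ^ 2) = 0 := by
    rcases mul_eq_zero.1 e6 with h5 | h5
    · exact absurd h5 (pow_ne_zero _ hu)
    · linear_combination h5
  rcases mul_eq_zero.1 h6 with h7 | h7
  · left
    refine ⟨by rw [ha, h7, mul_zero], (C.u : K) ^ 2, pow_ne_zero 2 (Units.ne_zero _), ?_⟩
    rw [← e4, h7, ha, h7]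
    have : (C.u : K) ≠ 0 := Units.ne_zero _
    rw [Units.val_inv_eq_inv_val]
    field_simp
    ring
  · right
    refine ⟨C.r * ((C.u⁻¹ : Kˣ) : K) ^ 2, ?_⟩
    rw [← e4]
    have hb : b = 2 * C.r ^ 2 := by
      rw [ha] at h7
      linear_combination h7
    rw [hb, ha]
    ring

end

section
variable {K : Type} [Field K] [NumberField K]

/-- the conclusion for the isogenous curve -/
theorem rk_isg (F : Type) [Field F] [NumberField F] [Algebra K F] {a b : K} {j j' : ℤ} (hb : b ≠ 0)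
    (hb' : a ^ 2 - 4 * b ≠ 0) (hj : HasJ (crv a b) j) (hj' : HasJ (crv (-2 * a) (a ^ 2 - 4 * b)) j')
    (d : 𝓞 K) :
    RkZ (crF F (-2 * a) (a ^ 2 - 4 * b) d) ↔ RkZ (crF F a b d) := by
  unfold crF
  by_cases hd : (d : K) = 0
  · rw [hd]
    simp only [zero_mul, ne_eq, OfNat.ofNat_ne_zero, not_false_eq_true, zero_pow]
  have e1 : ∀ x y : K, (⟨0, algebraMap K F (d * x), 0, algebraMap K F ((d : K) ^ 2 * y), 0⟩ :
      WeierstrassCurve F) = Pool.Agent.Lib.MP_1a91b9_nuI.E2 (algebraMap K F (d * x))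
        (algebraMap K F ((d : K) ^ 2 * y)) := fun _ _ => rfl
  have e2 : ∀ x y : K, Pool.Agent.Lib.MP_1a91b9_nuI.E2 (algebraMap K F (d * x))
      (algebraMap K F ((d : K) ^ 2 * y)) = (twd (crv x y) (d : K)).map (algebraMap K F) := by
    intro x y
    rw [twd_crv]
    exact WeierstrassCurve.ext (map_zero _).symm rfl (map_zero _).symm rfl (map_zero _).symm
  have e3 : Pool.Agent.Lib.MP_1a91b9_nuI.E2 (algebraMap K F (d * (-2 * a)))
      (algebraMap K F ((d : K) ^ 2 * (a ^ 2 - 4 * b))) =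
      Pool.Agent.Lib.MP_1a91b9_nuI.E2 (-2 * algebraMap K F (d * a))
        (algebraMap K F (d * a) ^ 2 - 4 * algebraMap K F ((d : K) ^ 2 * b)) := by
    congr 1
    · simp only [map_mul, map_neg, map_ofNat]
      ring
    · simp only [map_mul, map_sub, map_pow, map_ofNat]
      ring
  have k1 : HasJ (Pool.Agent.Lib.MP_1a91b9_nuI.E2 (algebraMap K F (d * a))
      (algebraMap K F ((d : K) ^ 2 * b))) j := by
    rw [e2]
    exact hasJ_map _ (twd_hasJ hj _)
  have k2 : HasJ (Pool.Agent.Lib.MP_1a91b9_nuI.E2 (-2 * algebraMap K F (d * a))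
      (algebraMap K F (d * a) ^ 2 - 4 * algebraMap K F ((d : K) ^ 2 * b))) j' := by
    rw [← e3, e2]
    exact hasJ_map _ (twd_hasJ hj' _)
  have k3 : algebraMap K F ((d : K) ^ 2 * b) ≠ 0 :=
    (map_ne_zero _).2 (mul_ne_zero (pow_ne_zero 2 hd) hb)
  have k4 : algebraMap K F (d * a) ^ 2 - 4 * algebraMap K F ((d : K) ^ 2 * b) ≠ 0 := by
    have h5 : algebraMap K F (d * a) ^ 2 - 4 * algebraMap K F ((d : K) ^ 2 * b) =
        algebraMap K F ((d : K) ^ 2 * (a ^ 2 - 4 * b)) := by
      simp only [map_mul, map_sub, map_pow, map_ofNat]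
      ring
    rw [h5]
    exact (map_ne_zero _).2 (mul_ne_zero (pow_ne_zero 2 hd) hb')
  rw [e1, e1, e3]
  exact Pool.Agent.Lib.MP_1a91b9_ntY.RkZ.two k3 k4 k1 k2

open Classical in
/-- the number of the multiples for which the conclusion holds -/
def cntB (F : Type) [Field F] [NumberField F] [Algebra K F] (Δ : Finset (𝓞 K))
    (W : WeierstrassCurve K) (d : 𝓞 K) : ℕ :=
  (Δ.filter fun δ => RkZ ((twd W ((d * δ : 𝓞 K) : K)).map (algebraMap K F))).card

/-- The property of `W`. The condition on `Δ` for the curves `y² = x³ + b x`. -/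
def QB (F : Type) [Field F] [NumberField F] [Algebra K F] (Δ : Finset (𝓞 K)) (t : ℕ) (m u : 𝓞 K)
    (c : ℝ) (W : WeierstrassCurve K) : Prop :=
  (∀ (C : VariableChange K) (b : K), b ≠ 0 → C • W = crv 0 b → SepU F b Δ) →
    PropGE K m u (fun d => t ≤ cntB F Δ W d) c

open Classical in
theorem cntB_crv (F : Type) [Field F] [NumberField F] [Algebra K F] (Δ : Finset (𝓞 K)) (a b : K)
    (d : 𝓞 K) :
    cntB F Δ (crv a b) d = (Δ.filter fun δ => RkZ (crF F a b (d * δ))).card := by
  unfold cntB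
  refine congrArg Finset.card (Finset.filter_congr fun δ _ => ?_)
  rw [crF_eq]

open Classical in
/-- **The property is invariant.** -/
theorem inv2_QB (F : Type) [Field F] [NumberField F] [Algebra K F] {Δ : Finset (𝓞 K)}
    (hΔ : SepU F (1 : K) Δ) (t : ℕ) (m u : 𝓞 K) (c : ℝ) :
    Inv2 (QB F Δ t m u c : WeierstrassCurve K → Prop) where
  vc := by
    intro W j hj C h1 h0
    have h2 := h1 (fun C' b hb hC' => h0 (C' * C) b hb (by rw [mul_smul]; exact hC'))
    have e : (fun d : 𝓞 K => t ≤ cntB F Δ (C • W) d) = fun d : 𝓞 K => t ≤ cntB F Δ W d := by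
      funext d
      have e1 : cntB F Δ (C • W) d = cntB F Δ W d := by
        unfold cntB
        refine congrArg Finset.card (Finset.filter_congr fun δ _ => ?_)
        rw [← twd_vc W C, ← WeierstrassCurve.map_variableChange]
        exact Pool.Agent.Lib.MP_1a91b9_ntW.J.RkZ.vc (hasJ_map _ (twd_hasJ hj _)) _
      rw [e1]
    rw [e] at h2
    exact h2
  isg := by
    intro a b j j' hb hb' hj hj' h1 h0
    have h2 := h1 (fun C' b₀ hb₀ hC' => by
      rcases crv_zero_cases hC' with ⟨ha, z, hz, hbz⟩ | ⟨z, hz⟩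
      · subst ha
        have h3 := h0 1 ((0 : K) ^ 2 - 4 * b) hb' (by rw [one_smul, mul_zero])
        refine h3.of_eq (z := 2 * z) (mul_ne_zero two_ne_zero hz) ?_
        right
        rw [hbz]
        ring
      · have hz0 : z ≠ 0 := by
          rintro rfl
          exact hb₀ (by rw [hz]; ring)
        refine hΔ.congr hz0 ?_
        right
        rw [hz]
        ring)
    have e : (fun d : 𝓞 K => t ≤ cntB F Δ (crv (-2 * a) (a ^ 2 - 4 * b)) d) =
        fun d : 𝓞 K => t ≤ cntB F Δ (crv a b) d := by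
      funext d
      have e1 : cntB F Δ (crv (-2 * a) (a ^ 2 - 4 * b)) d = cntB F Δ (crv a b) d := by
        rw [cntB_crv, cntB_crv]
        refine congrArg Finset.card (Finset.filter_congr fun δ _ => ?_)
        exact rk_isg F hb hb' hj hj' _
      rw [e1]
    rw [e]
    exact h2

end

end

end Pool.Agent.Lib.MP_1a91b9_ntB
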