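import Pool.Agent.Lib.MP_1a91b9_ntZ.Forms
import Pool.Agent.Lib.MP_1a91b9_ntW.J.TrH

/-!
# The rank part for the multiples by a finite set: the statement, and the transport along an isomorphism
of number fields
-/

set_option autoImplicit false

namespace Pool.Agent.Lib.MP_1a91b9_ntB

open NumberField
open Pool.Agent.Lib.MP_1a91b9_ntW.J (RkZ PropGE Cls2)
open Pool.Agent.Lib.MP_1a91b9_ntZ (bn Atl SepF BQG)

noncomputable section

/-- `± x` times the product of two different elements of `Δ` is not a square in `F`. -/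
def SepU {K : Type} [Field K] (F : Type) [Field F] [Algebra K F] (x : K) (Δ : Finset (𝓞 K)) : Prop :=
  ∀ δ ∈ Δ, ∀ δ' ∈ Δ, δ ≠ δ' → ¬ IsSquare (algebraMap K F (x * ((δ * δ' : 𝓞 K) : K))) ∧
    ¬ IsSquare (algebraMap K F (-(x * ((δ * δ' : 𝓞 K) : K))))

/-- The elements of `Δ` are not zero and independent over `F` for the curve `y² = x³ + a x² + b x`. -/
structure Sep {K : Type} [Field K] (F : Type) [Field F] [Algebra K F] (b : K) (Δ : Finset (𝓞 K)) :
    Prop where
  ne : ∀ δ ∈ Δ, δ ≠ 0
  one : SepU F (1 : K) Δ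
  mul : SepU F b Δ

/-- the curve `y² = x³ + d a x² + d² b x` over `F` -/
def crF {K : Type} [Field K] (F : Type) [Field F] [Algebra K F] (a b : K) (d : 𝓞 K) :
    WeierstrassCurve F :=
  ⟨0, algebraMap K F (d * a), 0, algebraMap K F ((d : K) ^ 2 * b), 0⟩

open Classical in
/-- The result for the multiples by the elements of finite sets, over the extensions generated by `l`-th
roots, for classes which may depend on the extension. -/
def MQB (K : Type) [Field K] [NumberField K] (l : ℕ)
    (H : (F : Type) → [Field F] → 𝓞 K → 𝓞 K → Prop) (a b : K) (c : ℝ) : Prop :=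
  ∀ (F : Type) [Field F] [NumberField F] [Algebra K F],
    IntermediateField.adjoin K {x : F | ∃ c : K, x ^ l = algebraMap K F c} = ⊤ →
    ∀ Δ : Finset (𝓞 K), Sep F b Δ → ∀ (t : ℕ) (m u : 𝓞 K), H F m u →
    PropGE K m u (fun d => t ≤ (Δ.filter fun δ => RkZ (crF F a b (d * δ))).card)
      (bn Δ.card t (c ^ Module.finrank K F))

/-- the image of a finite set of integers -/
def mapΔ {K K' : Type} [Field K] [Field K'] (e : K ≃+* K') (Δ : Finset (𝓞 K)) : Finset (𝓞 K') :=
  Δ.map ((RingOfIntegers.mapRingEquiv e).toEquiv.toEmbedding)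

theorem mem_mapΔ {K K' : Type} [Field K] [Field K'] (e : K ≃+* K') {Δ : Finset (𝓞 K)}
    {x : 𝓞 K'} : x ∈ mapΔ e Δ ↔ ∃ δ ∈ Δ, RingOfIntegers.mapRingEquiv e δ = x := by
  unfold mapΔ
  rw [Finset.mem_map]
  rfl

theorem card_mapΔ {K K' : Type} [Field K] [Field K'] (e : K ≃+* K') (Δ : Finset (𝓞 K)) :
    (mapΔ e Δ).card = Δ.card := Finset.card_map _

open Classical in
theorem filter_mapΔ {K K' : Type} [Field K] [Field K'] (e : K ≃+* K') (Δ : Finset (𝓞 K))
    (P : 𝓞 K' → Prop) :
    ((mapΔ e Δ).filter P).card = (Δ.filter fun δ => P (RingOfIntegers.mapRingEquiv e δ)).card := by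
  unfold mapΔ
  rw [Finset.filter_map, Finset.card_map]
  rfl

open Classical in
/-- **Transport of the result.** -/
theorem MQB.tr {K K' : Type} [Field K] [NumberField K] [Field K'] [NumberField K']
    (e : K' ≃+* K) {l : ℕ} {H' : (F : Type) → [Field F] → 𝓞 K' → 𝓞 K' → Prop}
    {H : (F : Type) → [Field F] → 𝓞 K → 𝓞 K → Prop}
    (hH : ∀ (F : Type) [Field F] (m u : 𝓞 K), H F m u → H' F ((RingOfIntegers.mapRingEquiv e).symm m)
      ((RingOfIntegers.mapRingEquiv e).symm u))
    {a b : K'} {c : ℝ} (h : MQB K' l H' a b c) : MQB K l H (e a) (e b) c := by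
  intro F _ _ _ hF Δ hΔ t m u hmu
  let _ : Algebra K' F := ((algebraMap K F).comp (e : K' →+* K)).toAlgebra
  have hal : ∀ y : K', algebraMap K' F y = algebraMap K F (e y) := fun _ => rfl
  have hF' : IntermediateField.adjoin K' {x : F | ∃ c : K', x ^ l = algebraMap K' F c} = ⊤ := by
    have hset : {x : F | ∃ c : K', x ^ l = algebraMap K' F c} =
        {x : F | ∃ c : K, x ^ l = algebraMap K F c} := by
      ext x
      constructor
      · rintro ⟨c, hc⟩
        exact ⟨e c, hc⟩
      · rintro ⟨c, hc⟩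
        refine ⟨e.symm c, ?_⟩
        rw [hal, e.apply_symm_apply, hc]
    rw [eq_top_iff]
    intro x _
    have hx : x ∈ IntermediateField.adjoin K {x : F | ∃ c : K, x ^ l = algebraMap K F c} := by
      rw [hF]
      exact IntermediateField.mem_top
    rw [hset]
    rw [← IntermediateField.mem_toSubfield, IntermediateField.adjoin_toSubfield] at hx ⊢
    have hr : Set.range (algebraMap K' F) = Set.range (algebraMap K F) := by
      ext y
      constructor
      · rintro ⟨z, rfl⟩
        exact ⟨e z, rfl⟩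
      · rintro ⟨z, rfl⟩
        exact ⟨e.symm z, by rw [hal, e.apply_symm_apply]⟩
    rw [hr]
    exact hx
  have hfin : Module.finrank K' F = Module.finrank K F := by
    have h1 : Module.finrank ℚ K' * Module.finrank K' F = Module.finrank ℚ F :=
      Module.finrank_mul_finrank ℚ K' F
    have h2 : Module.finrank ℚ K * Module.finrank K F = Module.finrank ℚ F :=
      Module.finrank_mul_finrank ℚ K F
    have h3 : Module.finrank ℚ K' = Module.finrank ℚ K :=
      (RingEquiv.toRatAlgEquiv e).toLinearEquiv.finrank_eq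
    rw [← h2, ← h3] at h1
    exact Nat.eq_of_mul_eq_mul_left Module.finrank_pos h1
  obtain ⟨e', he'⟩ : ∃ e' : K ≃+* K', e' = e.symm := ⟨_, rfl⟩
  have hre : ∀ x : 𝓞 K, RingOfIntegers.mapRingEquiv e (RingOfIntegers.mapRingEquiv e' x) = x := by
    intro x
    apply RingOfIntegers.ext
    rw [RingOfIntegers.mapRingEquiv_apply, RingOfIntegers.mapRingEquiv_apply, he',
      e.apply_symm_apply]
  have hU : ∀ x : K', SepU F (e x) Δ → SepU F x (mapΔ e' Δ) := by
    intro x hx δ₁ h1 δ₂ h2 hne
    obtain ⟨δ, hδ, rfl⟩ := (mem_mapΔ e').1 h1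
    obtain ⟨δ', hδ', rfl⟩ := (mem_mapΔ e').1 h2
    have hne' : δ ≠ δ' := fun h => hne (by rw [h])
    have h3 := hx δ hδ δ' hδ' hne'
    have e1 : e (x * ((RingOfIntegers.mapRingEquiv e' δ * RingOfIntegers.mapRingEquiv e' δ' :
        𝓞 K') : K')) = e x * ((δ * δ' : 𝓞 K) : K) := by
      rw [map_mul, ← map_mul (RingOfIntegers.mapRingEquiv e'), RingOfIntegers.mapRingEquiv_apply,
        he', e.apply_symm_apply]
    rw [hal, hal, map_neg e, e1]
    exact h3
  have hΔ' : Sep F b (mapΔ e' Δ) := by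
    refine ⟨fun δ₁ h1 h0 => ?_, hU 1 ?_, hU b hΔ.mul⟩
    · obtain ⟨δ, hδ, rfl⟩ := (mem_mapΔ e').1 h1
      exact hΔ.ne δ hδ ((map_eq_zero_iff _ (RingOfIntegers.mapRingEquiv e').injective).1 h0)
    · rw [map_one]
      exact hΔ.one
  have h1 := h F hF' (mapΔ e' Δ) hΔ' t ((RingOfIntegers.mapRingEquiv e).symm m)
    ((RingOfIntegers.mapRingEquiv e).symm u) (hH F m u hmu)
  rw [hfin, card_mapΔ] at h1
  refine PropGE.tr e ?_
  have e2 : (fun d : 𝓞 K' => t ≤ (Δ.filter fun δ => RkZ (crF F (e a) (e b)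
        (RingOfIntegers.mapRingEquiv e d * δ))).card) =
      fun d : 𝓞 K' => t ≤ ((mapΔ e' Δ).filter fun δ => RkZ (crF F a b (d * δ))).card := by
    funext d
    rw [filter_mapΔ]
    have e3 : ∀ δ : 𝓞 K, crF F (e a) (e b) (RingOfIntegers.mapRingEquiv e d * δ) =
        crF F a b (d * RingOfIntegers.mapRingEquiv e' δ) := by
      intro δ
      have e4 : ((RingOfIntegers.mapRingEquiv e d * δ : 𝓞 K) : K) =
          e ((d * RingOfIntegers.mapRingEquiv e' δ : 𝓞 K') : K') := by
        rw [← RingOfIntegers.mapRingEquiv_apply, map_mul (RingOfIntegers.mapRingEquiv e), hre]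
      unfold crF
      rw [hal, hal, e4, map_mul e, map_mul e, map_pow e]
    simp only [e3]
  rw [e2]
  exact h1

end

end Pool.Agent.Lib.MP_1a91b9_ntB
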